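import Mathlib

/-!
# Hypersurfaces in `ℂⁿ`, isolated singular points, quasihomogeneous polynomials
-/

namespace Pool.Agent.H9.QuasiHom

open MvPolynomial

/-- The hypersurface `X = {p = 0} ⊂ ℂⁿ`; it carries the subspace topology of `ℂⁿ`. -/
def Hypersurface {n : ℕ} (p : MvPolynomial (Fin n) ℂ) : Set (Fin n → ℂ) :=
  {z | eval z p = 0}

/-- `a` is a singular point of `{p = 0}` (for `p` generating the ideal of `{p = 0}`): `a` lies on
the hypersurface and all partial derivatives of `p` vanish at `a`. -/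
def IsSingularPoint {n : ℕ} (p : MvPolynomial (Fin n) ℂ) (a : Fin n → ℂ) : Prop :=
  eval a p = 0 ∧ ∀ i, eval a (pderiv i p) = 0

/-- `a` is an isolated singular point of `{p = 0}`: it is singular and some Euclidean
neighbourhood of `a` contains no other singular point. -/
def IsIsolatedSingularPoint {n : ℕ} (p : MvPolynomial (Fin n) ℂ) (a : Fin n → ℂ) : Prop :=
  IsSingularPoint p a ∧ ∃ U : Set (Fin n → ℂ), IsOpen U ∧ a ∈ U ∧
    ∀ b ∈ U, IsSingularPoint p b → b = a

/-- `q` is quasihomogeneous: for some positive integer weights `w i` and some integer `d`,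
`q (t^(w 0) z 0, …) = t^d q (z)` for all `t ∈ ℂ*` and all `z`. -/
def IsQuasihomogeneous {n : ℕ} (q : MvPolynomial (Fin n) ℂ) : Prop :=
  ∃ (w : Fin n → ℕ) (d : ℤ), (∀ i, 0 < w i) ∧
    ∀ t : ℂ, t ≠ 0 → ∀ z : Fin n → ℂ, eval (fun i => t ^ w i * z i) q = t ^ d * eval z q

end Pool.Agent.H9.QuasiHom
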