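import Mathlib
import Pool.Agent.H9.QuasiHom.Defs

namespace Pool.Agent.H9.QuasiHom

open MvPolynomial

variable {n : ℕ}

lemma pderiv_algHom (φ : MvPolynomial (Fin n) ℂ →ₐ[ℂ] MvPolynomial (Fin n) ℂ)
    (p : MvPolynomial (Fin n) ℂ) (i : Fin n) :
    pderiv i (φ p) = ∑ j, φ (pderiv j p) * pderiv i (φ (X j)) := by
  induction p using MvPolynomial.induction_on with
  | C a =>
    have : φ (C a) = C a := φ.commutes a
    simp [this]
  | add p q hp hq =>
    rw [map_add, map_add, hp, hq, ← Finset.sum_add_distrib]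
    refine Finset.sum_congr rfl fun j _ => ?_
    rw [map_add, map_add]; ring
  | mul_X p k hp =>
    have hX : ∀ j, pderiv j (X k : MvPolynomial (Fin n) ℂ) = if j = k then 1 else 0 := by
      intro j
      by_cases h : j = k
      · subst h; simp
      · simp [pderiv_X, h, Ne.symm h]
    have hj : ∀ j, φ (pderiv j (p * X k)) * pderiv i (φ (X j)) =
        φ p * (if j = k then pderiv i (φ (X j)) else 0)
          + φ (X k) * (φ (pderiv j p) * pderiv i (φ (X j))) := by
      intro j
      rw [Derivation.leibniz, hX j]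
      by_cases h : j = k
      · simp only [h, if_true, smul_eq_mul, map_add, map_mul, map_one]; ring
      · simp only [h, if_false, smul_eq_mul, map_add, map_mul, mul_zero, map_zero]; ring
    rw [Finset.sum_congr rfl fun j _ => hj j, Finset.sum_add_distrib, ← Finset.mul_sum,
      ← Finset.mul_sum, ← hp, map_mul, Derivation.leibniz]
    simp

/-- the polynomial map attached to an algebra endomorphism -/
noncomputable def Phi (φ : MvPolynomial (Fin n) ℂ →ₐ[ℂ] MvPolynomial (Fin n) ℂ) (z : Fin n → ℂ) :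
    Fin n → ℂ := fun j => eval z (φ (X j))

lemma eval_algHom (φ : MvPolynomial (Fin n) ℂ →ₐ[ℂ] MvPolynomial (Fin n) ℂ) (z : Fin n → ℂ)
    (p : MvPolynomial (Fin n) ℂ) : eval z (φ p) = eval (Phi φ z) p := by
  have : (aeval z : MvPolynomial (Fin n) ℂ →ₐ[ℂ] ℂ).comp φ = aeval (Phi φ z) := by
    apply MvPolynomial.algHom_ext
    intro i
    simp [Phi]
  have h := DFunLike.congr_fun this p
  simpa [MvPolynomial.aeval_eq_eval] using h

lemma sing_of_sing (φ : MvPolynomial (Fin n) ℂ →ₐ[ℂ] MvPolynomial (Fin n) ℂ) (z : Fin n → ℂ)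
    (p : MvPolynomial (Fin n) ℂ) (h : IsSingularPoint p (Phi φ z)) :
    IsSingularPoint (φ p) z := by
  refine ⟨by rw [eval_algHom]; exact h.1, fun i => ?_⟩
  rw [pderiv_algHom, map_sum]
  refine Finset.sum_eq_zero fun j _ => ?_
  rw [map_mul, eval_algHom, h.2 j, zero_mul]

lemma Phi_Phi_symm (φ : MvPolynomial (Fin n) ℂ ≃ₐ[ℂ] MvPolynomial (Fin n) ℂ) (z : Fin n → ℂ) :
    Phi (φ.symm : MvPolynomial (Fin n) ℂ →ₐ[ℂ] MvPolynomial (Fin n) ℂ)
      (Phi (φ : MvPolynomial (Fin n) ℂ →ₐ[ℂ] MvPolynomial (Fin n) ℂ) z) = z := by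
  funext j
  have := (eval_algHom (φ : MvPolynomial (Fin n) ℂ →ₐ[ℂ] MvPolynomial (Fin n) ℂ) z (φ.symm (X j)))
  simp only [AlgEquiv.coe_toAlgHom, AlgEquiv.apply_symm_apply, eval_X] at this
  exact this.symm

lemma sing_iff (φ : MvPolynomial (Fin n) ℂ ≃ₐ[ℂ] MvPolynomial (Fin n) ℂ) (z : Fin n → ℂ)
    (p : MvPolynomial (Fin n) ℂ) : IsSingularPoint (φ p) z ↔
      IsSingularPoint p (Phi (φ : MvPolynomial (Fin n) ℂ →ₐ[ℂ] MvPolynomial (Fin n) ℂ) z) := by
  constructor
  · intro h
    have := sing_of_sing (φ.symm : MvPolynomial (Fin n) ℂ →ₐ[ℂ] MvPolynomial (Fin n) ℂ)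
      (Phi (φ : MvPolynomial (Fin n) ℂ →ₐ[ℂ] MvPolynomial (Fin n) ℂ) z) (φ p)
      (by rw [Phi_Phi_symm]; exact h)
    simpa using this
  · intro h
    exact sing_of_sing (φ : MvPolynomial (Fin n) ℂ →ₐ[ℂ] MvPolynomial (Fin n) ℂ) z p h

/-- scaling preserves the singular points of a quasihomogeneous polynomial -/
lemma sing_scale {q : MvPolynomial (Fin n) ℂ} {w : Fin n → ℕ} {d : ℤ}
    (hq : ∀ t : ℂ, t ≠ 0 → ∀ z : Fin n → ℂ, eval (fun i => t ^ w i * z i) q = t ^ d * eval z q)
    {z : Fin n → ℂ} (hz : IsSingularPoint q z) {t : ℂ} (ht : t ≠ 0) :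
    IsSingularPoint q (fun i => t ^ w i * z i) := by
  refine ⟨by rw [hq t ht, hz.1, mul_zero], fun i => ?_⟩
  let σ : MvPolynomial (Fin n) ℂ →ₐ[ℂ] MvPolynomial (Fin n) ℂ := aeval fun i => C (t ^ w i) * X i
  have hPhi : ∀ v, Phi σ v = fun i => t ^ w i * v i := by
    intro v; funext j; simp [Phi, σ]
  have h1 : σ q = C (t ^ d) * q := by
    apply MvPolynomial.funext
    intro v
    rw [eval_algHom, hPhi, hq t ht]
    simp
  have h2 := pderiv_algHom σ q i
  have h3 : ∀ j, pderiv i (σ (X j)) = if i = j then C (t ^ w i) else 0 := by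
    intro j
    simp only [σ, aeval_X, Derivation.leibniz, pderiv_C, pderiv_X, smul_eq_mul]
    by_cases hij : i = j
    · subst hij; simp
    · simp [hij, Ne.symm hij]
  simp only [h3, mul_ite, mul_zero, Finset.sum_ite_eq, Finset.mem_univ, if_true] at h2
  rw [h1] at h2
  have h4 := congrArg (eval z) h2
  rw [(eval z).map_mul (σ _), eval_algHom, hPhi, eval_C] at h4
  simp only [Derivation.leibniz, pderiv_C, add_zero, smul_eq_mul, map_mul, eval_C,
    hz.2 i, mul_zero] at h4
  rcases mul_eq_zero.mp h4.symm with h | h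
  · exact h
  · exact absurd h (pow_ne_zero _ ht)

theorem not_quasihomogeneous_of_two {p : MvPolynomial (Fin n) ℂ}
    (hfin : {a | IsSingularPoint p a}.Finite) {a b : Fin n → ℂ} (ha : IsSingularPoint p a)
    (hb : IsSingularPoint p b) (hab : a ≠ b)
    (φ : MvPolynomial (Fin n) ℂ ≃ₐ[ℂ] MvPolynomial (Fin n) ℂ) :
    ¬ IsQuasihomogeneous (φ p) := by
  rintro ⟨w, d, hw, hq⟩
  set F := Phi (φ : MvPolynomial (Fin n) ℂ →ₐ[ℂ] MvPolynomial (Fin n) ℂ) with hF
  set G := Phi (φ.symm : MvPolynomial (Fin n) ℂ →ₐ[ℂ] MvPolynomial (Fin n) ℂ) with hG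
  have hGF : ∀ z, G (F z) = z := Phi_Phi_symm φ
  have hFG : ∀ z, F (G z) = z := by
    intro z
    have := Phi_Phi_symm φ.symm z
    simpa using this
  have hFinj : Function.Injective F := fun x y h => by rw [← hGF x, h, hGF]
  have hfin' : {z | IsSingularPoint (φ p) z}.Finite := by
    refine Set.Finite.subset (hfin.preimage hFinj.injOn) ?_
    intro z hz
    exact (sing_iff φ z p).mp hz
  obtain ⟨z, hz0, hz⟩ : ∃ z : Fin n → ℂ, z ≠ 0 ∧ IsSingularPoint (φ p) z := by
    have h1 : IsSingularPoint (φ p) (G a) := (sing_iff φ _ p).mpr (by rw [← hF, hFG]; exact ha)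
    have h2 : IsSingularPoint (φ p) (G b) := (sing_iff φ _ p).mpr (by rw [← hF, hFG]; exact hb)
    by_cases h : G a = 0
    · refine ⟨G b, fun h' => hab ?_, h2⟩
      rw [← hFG a, ← hFG b, h, h']
    · exact ⟨G a, h, h1⟩
  obtain ⟨i, hi⟩ : ∃ i, z i ≠ 0 := by
    by_contra hcon
    push Not at hcon
    exact hz0 (funext hcon)
  refine Set.infinite_of_injective_forall_mem
    (f := fun k : ℕ => (fun i => ((2 : ℂ) ^ k) ^ w i * z i)) ?_ ?_ hfin'
  · intro k l hkl
    have h := congrFun hkl i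
    simp only at h
    have h2 := mul_right_cancel₀ hi h
    rw [← pow_mul, ← pow_mul] at h2
    have h3 : ((2 : ℕ) : ℂ) ^ (k * w i) = ((2 : ℕ) : ℂ) ^ (l * w i) := by exact_mod_cast h2
    have h4 : (2 : ℕ) ^ (k * w i) = 2 ^ (l * w i) := by exact_mod_cast h3
    have h5 := Nat.pow_right_injective (le_refl 2) h4
    exact Nat.eq_of_mul_eq_mul_right (hw i) h5
  · intro k
    exact sing_scale hq hz (pow_ne_zero _ two_ne_zero)

/-! ### The surface `y² + z(z-1)x = 0` in `ℂ³` -/

/-- the polynomial `z(z-1)x + y²` -/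
noncomputable def pp : MvPolynomial (Fin 3) ℂ := (X 2 * (X 2 - 1)) * X 0 + X 1 ^ 2

lemma eval_pp (v : Fin 3 → ℂ) : eval v pp = v 2 * (v 2 - 1) * v 0 + v 1 ^ 2 := by
  simp [pp]

lemma eval_d0 (v : Fin 3 → ℂ) : eval v (pderiv 0 pp) = v 2 * (v 2 - 1) := by
  have h1 : pderiv 0 (X 2 : MvPolynomial (Fin 3) ℂ) = 0 := pderiv_X_of_ne (by decide)
  have h2 : pderiv 0 (X 1 : MvPolynomial (Fin 3) ℂ) = 0 := pderiv_X_of_ne (by decide)
  simp [pp, Derivation.leibniz, Derivation.leibniz_pow, h1, h2]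

lemma eval_d1 (v : Fin 3 → ℂ) : eval v (pderiv 1 pp) = 2 * v 1 := by
  have h1 : pderiv 1 (X 2 : MvPolynomial (Fin 3) ℂ) = 0 := pderiv_X_of_ne (by decide)
  have h2 : pderiv 1 (X 0 : MvPolynomial (Fin 3) ℂ) = 0 := pderiv_X_of_ne (by decide)
  simp [pp, Derivation.leibniz, Derivation.leibniz_pow, h1, h2]

lemma eval_d2 (v : Fin 3 → ℂ) : eval v (pderiv 2 pp) = v 0 * (2 * v 2 - 1) := by
  have h1 : pderiv 2 (X 1 : MvPolynomial (Fin 3) ℂ) = 0 := pderiv_X_of_ne (by decide)
  have h2 : pderiv 2 (X 0 : MvPolynomial (Fin 3) ℂ) = 0 := pderiv_X_of_ne (by decide)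
  simp [pp, Derivation.leibniz, Derivation.leibniz_pow, h1, h2]
  left; ring

lemma sing_pp (v : Fin 3 → ℂ) : IsSingularPoint pp v ↔ v = 0 ∨ v = ![0, 0, 1] := by
  constructor
  · rintro ⟨-, h⟩
    have h0 := h 0
    have h1 := h 1
    have h2 := h 2
    rw [eval_d0] at h0
    rw [eval_d1] at h1
    rw [eval_d2] at h2
    have hy : v 1 = 0 := by
      rcases mul_eq_zero.mp h1 with h | h
      · norm_num at h
      · exact h
    rcases mul_eq_zero.mp h0 with hz | hz
    · left
      have hx : v 0 = 0 := by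
        rw [hz] at h2
        linear_combination -h2
      funext i; fin_cases i
      · exact hx
      · exact hy
      · exact hz
    · right
      have hz' : v 2 = 1 := by linear_combination hz
      have hx : v 0 = 0 := by
        rw [hz'] at h2
        linear_combination h2
      funext i; fin_cases i
      · exact hx
      · exact hy
      · exact hz'
  · intro hv
    have hall : v 0 = 0 ∧ v 1 = 0 ∧ v 2 * (v 2 - 1) = 0 := by
      rcases hv with rfl | rfl <;> simp
    obtain ⟨h0, h1, h2⟩ := hall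
    refine ⟨by rw [eval_pp, h0, h1]; ring, fun i => ?_⟩
    fin_cases i
    · exact (eval_d0 v).trans h2
    · exact (eval_d1 v).trans (by rw [h1]; ring)
    · exact (eval_d2 v).trans (by rw [h0]; ring)

lemma irr_pp : Irreducible pp := by
  unfold pp
  apply irreducible_mul_X_add
  · intro h
    have := congrArg (eval ![0, 0, 2]) h
    simp at this
    norm_num at this
  · intro h
    have h1 := vars_mul _ _ h
    rw [Finset.mem_union] at h1
    rcases h1 with h1 | h1
    · rw [vars_X, Finset.mem_singleton] at h1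
      exact absurd h1 (by decide)
    · have h2 := vars_sub_subset _ h1
      rw [Finset.mem_union, vars_X, vars_one, Finset.mem_singleton] at h2
      rcases h2 with h2 | h2
      · exact absurd h2 (by decide)
      · simp at h2
  · intro h
    have h1 := vars_pow _ _ h
    rw [vars_X, Finset.mem_singleton] at h1
    exact absurd h1 (by decide)
  · have hirr : Irreducible (X 1 : MvPolynomial (Fin 3) ℂ) := (X_prime).irreducible
    have h1 : IsRelPrime (X 1 : MvPolynomial (Fin 3) ℂ) (X 2 * (X 2 - 1)) := by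
      rw [hirr.isRelPrime_iff_not_dvd]
      rintro ⟨g, hg⟩
      have := congrArg (eval ![0, 0, 2]) hg
      simp at this
      norm_num at this
    exact h1.pow_left.symm

lemma mem_pp (v : Fin 3 → ℂ) : v ∈ Hypersurface pp ↔ v 2 * (v 2 - 1) * v 0 + v 1 ^ 2 = 0 := by
  unfold Hypersurface
  rw [Set.mem_ofPred_eq, eval_pp]

/-- the projection to the `z`-axis -/
def toAxis : C(Hypersurface pp, ℂ) :=
  ⟨fun v => v.1 2, (continuous_apply 2).comp continuous_subtype_val⟩

/-- the `z`-axis lies on the surface -/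
def ofAxis : C(ℂ, Hypersurface pp) :=
  ⟨fun z => ⟨![0, 0, z], by rw [mem_pp]; simp⟩, by
    refine Continuous.subtype_mk ?_ _
    refine continuous_pi fun i => ?_
    fin_cases i
    · exact continuous_const
    · exact continuous_const
    · exact continuous_id⟩

/-- the deformation `(x, y, z) ↦ (s² x, s y, z)` -/
noncomputable def deform : (ofAxis.comp toAxis).Homotopy (ContinuousMap.id (Hypersurface pp)) where
  toFun sv := ⟨![((sv.1 : ℝ) : ℂ) ^ 2 * sv.2.1 0, ((sv.1 : ℝ) : ℂ) * sv.2.1 1, sv.2.1 2], by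
    have h := (mem_pp _).mp sv.2.2
    rw [mem_pp]
    change sv.2.1 2 * (sv.2.1 2 - 1) * (((sv.1 : ℝ) : ℂ) ^ 2 * sv.2.1 0)
      + (((sv.1 : ℝ) : ℂ) * sv.2.1 1) ^ 2 = 0
    linear_combination (((sv.1 : ℝ) : ℂ) ^ 2) * h⟩
  continuous_toFun := by
    have hc : ∀ i : Fin 3, Continuous fun sv : unitInterval × Hypersurface pp => sv.2.1 i :=
      fun i => (continuous_apply i).comp (continuous_subtype_val.comp continuous_snd)
    have hs : Continuous fun sv : unitInterval × Hypersurface pp => ((sv.1 : ℝ) : ℂ) :=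
      Complex.continuous_ofReal.comp (continuous_subtype_val.comp continuous_fst)
    refine Continuous.subtype_mk ?_ _
    refine continuous_pi fun i => ?_
    fin_cases i
    · exact (hs.pow 2).mul (hc 0)
    · exact hs.mul (hc 1)
    · exact hc 2
  map_zero_left v := by
    apply Subtype.ext
    funext i
    fin_cases i <;> simp [ofAxis, toAxis]
  map_one_left v := by
    apply Subtype.ext
    funext i
    fin_cases i <;> simp

lemma contractible_pp : ContractibleSpace (Hypersurface pp) := by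
  let e : ContinuousMap.HomotopyEquiv (Hypersurface pp) ℂ :=
    { toFun := toAxis
      invFun := ofAxis
      left_inv := ⟨deform⟩
      right_inv := by
        have : toAxis.comp ofAxis = ContinuousMap.id ℂ := by
          ext z; simp [toAxis, ofAxis]
        rw [this] }
  exact e.contractibleSpace

lemma finite_sing : {a | IsSingularPoint pp a}.Finite := by
  refine (Set.toFinite {(0 : Fin 3 → ℂ), ![0, 0, 1]}).subset ?_
  intro a ha
  have := (sing_pp a).mp ha
  simpa using this

lemma isolated_of_finite {p : MvPolynomial (Fin n) ℂ} (hfin : {a | IsSingularPoint p a}.Finite)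
    (a : Fin n → ℂ) (ha : IsSingularPoint p a) : IsIsolatedSingularPoint p a := by
  refine ⟨ha, ({b | IsSingularPoint p b} \ {a})ᶜ, ?_, ?_, ?_⟩
  · exact (hfin.subset Set.sdiff_subset).isClosed.isOpen_compl
  · intro h
    exact h.2 rfl
  · intro b hb hsb
    by_contra hne
    exact hb ⟨hsb, hne⟩

theorem main : Irreducible pp ∧ ContractibleSpace (Hypersurface pp) ∧
    (∃ a, IsSingularPoint pp a) ∧
    (∀ a, IsSingularPoint pp a → IsIsolatedSingularPoint pp a) ∧
    ∀ φ : MvPolynomial (Fin 3) ℂ ≃ₐ[ℂ] MvPolynomial (Fin 3) ℂ, ¬ IsQuasihomogeneous (φ pp) := by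
  refine ⟨irr_pp, contractible_pp, ⟨0, (sing_pp 0).mpr (Or.inl rfl)⟩,
    isolated_of_finite finite_sing, fun φ => ?_⟩
  refine not_quasihomogeneous_of_two finite_sing ((sing_pp 0).mpr (Or.inl rfl))
    ((sing_pp ![0, 0, 1]).mpr (Or.inr rfl)) ?_ φ
  intro h
  have := congrFun h 2
  simp at this

end Pool.Agent.H9.QuasiHom
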